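import Pool.Agent.helper46.T7.SpecC

set_option autoImplicit false

namespace Pool.Agent.T7

open Finset NumberField Pool.Agent.helper3.FT Pool.Agent.helper47.RA Pool.Agent.T5 Pool.Agent.T6
open Pool.Agent.helper26.T5 (nn LEMB LP HCL HGA LYT LAW)
open Pool.Agent.helper28.LT (rad)

theorem C7F_small (ρ δ : ℝ) (h0 : 0 < ρ) (hδ0 : 0 < δ) (hδ1 : δ ≤ 1) (h : ρ ≤ δ ^ 20) :
    ρ ≤ 1 ∧ ρ ^ (1 / 20 : ℝ) ≤ δ ∧ √ρ ≤ δ ∧ ρ ^ (1 / 8 : ℝ) ≤ δ := by
  have h1 : ρ ≤ 1 := h.trans (pow_le_one₀ hδ0.le hδ1)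
  have h2 : ρ ^ (1 / 20 : ℝ) ≤ δ := by
    calc ρ ^ (1 / 20 : ℝ) ≤ (δ ^ 20) ^ (1 / 20 : ℝ) := Real.rpow_le_rpow h0.le h (by norm_num)
      _ = δ := by
        rw [← Real.rpow_natCast, ← Real.rpow_mul hδ0.le]
        norm_num
  refine ⟨h1, h2, ?_, ?_⟩
  · rw [Real.sqrt_eq_rpow]
    exact (Real.rpow_le_rpow_of_exponent_ge h0 h1 (by norm_num)).trans h2
  · exact (Real.rpow_le_rpow_of_exponent_ge h0 h1 (by norm_num)).trans h2

/-- the ranges -/
theorem C7F_rg (η η' N Y R : ℝ) (hη : 0 < η) (hηη : 2 * η ≤ η') (hN : 1 ≤ N) (hR : 1 ≤ R) (hRN : R ≤ N ^ η)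
    (h1 : N ^ (1 / 2 - η) ≤ Y) (h2 : Y ≤ √N) (h3 : Y * (R * √N) ≤ N) : Rg η' N Y (R * √N) := by
  have hN0 : 0 < N := by linarith
  have hs0 : 0 < √N := Real.sqrt_pos.mpr hN0
  have hY0 : 0 < Y := lt_of_lt_of_le (Real.rpow_pos_of_pos hN0 _) h1
  refine ⟨?_, ?_, h3, ?_⟩
  · nlinarith
  · have e1 : N ^ η * √N = N ^ (2 * η) * N ^ (1 / 2 - η) := by
      rw [Real.sqrt_eq_rpow, ← Real.rpow_add hN0, ← Real.rpow_add hN0]
      congr 1
      ring
    calc R * √N ≤ N ^ η * √N := mul_le_mul_of_nonneg_right hRN hs0.le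
      _ = N ^ (2 * η) * N ^ (1 / 2 - η) := e1
      _ ≤ N ^ η' * Y := mul_le_mul (Real.rpow_le_rpow_of_exponent_le hN hηη) h1
          (Real.rpow_nonneg hN0.le _) (Real.rpow_nonneg hN0.le _)
  · have e1 : N ^ (1 - η') ≤ N ^ (1 / 2 - η) * √N := by
      rw [Real.sqrt_eq_rpow, ← Real.rpow_add hN0]
      exact Real.rpow_le_rpow_of_exponent_le hN (by linarith)
    calc N ^ (1 - η') ≤ N ^ (1 / 2 - η) * √N := e1
      _ ≤ Y * (R * √N) := mul_le_mul h1 (by nlinarith) hs0.le hY0.le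

theorem C7F_sum (F F1 F2 F3 F4 F5 F6 : Finset Tpl)
    (h : ∀ t ∈ F, t ∈ F1 ∨ t ∈ F2 ∨ t ∈ F3 ∨ t ∈ F4 ∨ t ∈ F5 ∨ t ∈ F6) :
    (F.card : ℝ) ≤ F1.card + F2.card + F3.card + F4.card + F5.card + F6.card := by
  classical
  have h1 : F ⊆ ((((F1 ∪ F2) ∪ F3) ∪ F4) ∪ F5) ∪ F6 := by
    intro t ht
    simp only [mem_union]
    rcases h t ht with a | a | a | a | a | a <;> tauto
  have h2 := card_le_card h1
  have h3 := card_union_le ((((F1 ∪ F2) ∪ F3) ∪ F4) ∪ F5) F6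
  have h4 := card_union_le (((F1 ∪ F2) ∪ F3) ∪ F4) F5
  have h5 := card_union_le ((F1 ∪ F2) ∪ F3) F4
  have h6 := card_union_le (F1 ∪ F2) F3
  have h7 := card_union_le F1 F2
  have h8 : F.card ≤ F1.card + F2.card + F3.card + F4.card + F5.card + F6.card := by omega
  exact_mod_cast h8

theorem C7F : C7F_stmt := by
  classical
  intro hC7S hTD hSM ηA ηB hA0 hB0 hA hB hP hG
  obtain ⟨ηT, hT0, hT⟩ := hTD
  obtain ⟨ηS, hS0, hS1, hS⟩ := hSM
  obtain ⟨CP, hCP, hP⟩ := hP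
  obtain ⟨CG, hCG, hG⟩ := hG
  obtain ⟨η, hη⟩ : ∃ η, η = min (min ηA ηB) (min ηS (min ηT (1 / 100))) / 2 := ⟨_, rfl⟩
  have e1 : min (min ηA ηB) (min ηS (min ηT (1 / 100))) ≤ ηA := (min_le_left _ _).trans (min_le_left _ _)
  have e2 : min (min ηA ηB) (min ηS (min ηT (1 / 100))) ≤ ηB := (min_le_left _ _).trans (min_le_right _ _)
  have e3 : min (min ηA ηB) (min ηS (min ηT (1 / 100))) ≤ ηS := (min_le_right _ _).trans (min_le_left _ _)
  have e4 : min (min ηA ηB) (min ηS (min ηT (1 / 100))) ≤ ηT :=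
    (min_le_right _ _).trans ((min_le_right _ _).trans (min_le_left _ _))
  have e5 : min (min ηA ηB) (min ηS (min ηT (1 / 100))) ≤ 1 / 100 :=
    (min_le_right _ _).trans ((min_le_right _ _).trans (min_le_right _ _))
  have e6 : 0 < min (min ηA ηB) (min ηS (min ηT (1 / 100))) :=
    lt_min (lt_min hA0 hB0) (lt_min hS0 (lt_min hT0 (by norm_num)))
  have hη0 : 0 < η := by rw [hη]; linarith
  have hηA : 2 * η ≤ ηA := by rw [hη]; linarith
  have hηB : 2 * η ≤ ηB := by rw [hη]; linarith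
  have hηS : 2 * η ≤ ηS := by rw [hη]; linarith
  have hηT : 2 * η ≤ ηT := by rw [hη]; linarith
  have hη1 : η ≤ 1 / 100 := by rw [hη]; linarith
  refine ⟨η, hη0, hη1, fun κ hκ0 hκ1 => ?_⟩
  obtain ⟨CA1, NA1, hCA1, hA1⟩ := hA κ 1 hκ0 le_rfl
  obtain ⟨CT, KT, NT, hCT, hKT, hT1⟩ := hT κ 1 hκ0 le_rfl
  refine ⟨max CA1 (4 * CT), hCA1.trans (le_max_left _ _), fun w hw R ε hR hε => ?_⟩
  obtain ⟨A, hAd⟩ : ∃ A, A = max 1 (8 * CP * R / ε) := ⟨_, rfl⟩
  have hA1' : 1 ≤ A := by rw [hAd]; exact le_max_left _ _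
  have hA2' : CP * R / A ≤ ε / 8 := by
    have h1 : 8 * CP * R / ε ≤ A := by rw [hAd]; exact le_max_right _ _
    rw [div_le_iff₀ hε] at h1
    rw [div_le_iff₀ (by linarith)]
    nlinarith
  obtain ⟨CA2, NA2, hCA2, hA2⟩ := hA κ A hκ0 hA1'
  obtain ⟨CB, NB, hCB, hB1⟩ := hB κ hκ0 (by linarith)
  obtain ⟨CM, NM, hCM, hM1⟩ := hS κ R hκ0 (by linarith) hR
  obtain ⟨δ, hδ⟩ : ∃ δ, δ = min 1 (ε / (8 * (CA2 + CB + CM + CG * R))) := ⟨_, rfl⟩
  have hCR : 1 ≤ CG * R := by nlinarith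
  have hSum : 0 < CA2 + CB + CM + CG * R := by linarith
  have hδ0 : 0 < δ := by
    rw [hδ]
    exact lt_min one_pos (by positivity)
  have hδ1 : δ ≤ 1 := by rw [hδ]; exact min_le_left _ _
  have hδ2 : (CA2 + CB + CM + CG * R) * δ ≤ ε / 8 := by
    have h1 : δ ≤ ε / (8 * (CA2 + CB + CM + CG * R)) := by rw [hδ]; exact min_le_right _ _
    rw [le_div_iff₀ (by positivity)] at h1
    linarith
  have hd1 : CA2 * δ ≤ ε / 8 := by nlinarith
  have hd2 : CB * δ ≤ ε / 8 := by nlinarith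
  have hd3 : CM * δ ≤ ε / 8 := by nlinarith
  have hd4 : CG * R * δ ≤ ε / 8 := by nlinarith
  have hlim := (tendsto_rpow_atTop hη0).eventually_ge_atTop R
  obtain ⟨NR, hNR⟩ := Filter.eventually_atTop.mp hlim
  refine ⟨δ ^ 20 / R, max (max (max NA1 NT) (max NA2 NB)) (max NM (max NR 1)), by positivity,
    fun N Y hN hY1 hY2 F hF => ?_⟩
  have n1 : NA1 ≤ N := ((le_max_left _ _).trans (le_max_left _ _)).trans ((le_max_left _ _).trans hN)
  have n2 : NT ≤ N := ((le_max_right _ _).trans (le_max_left _ _)).trans ((le_max_left _ _).trans hN)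
  have n3 : NA2 ≤ N := ((le_max_left _ _).trans (le_max_right _ _)).trans ((le_max_left _ _).trans hN)
  have n4 : NB ≤ N := ((le_max_right _ _).trans (le_max_right _ _)).trans ((le_max_left _ _).trans hN)
  have n5 : NM ≤ N := (le_max_left _ _).trans ((le_max_right _ _).trans hN)
  have n6 : NR ≤ N := ((le_max_left _ _).trans (le_max_right _ _)).trans ((le_max_right _ _).trans hN)
  have n7 : 1 ≤ N := ((le_max_right _ _).trans (le_max_right _ _)).trans ((le_max_right _ _).trans hN)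
  have hN0 : 0 < N := by linarith
  have hs0 : 0 < √N := Real.sqrt_pos.mpr hN0
  have hss : √N * √N = N := Real.mul_self_sqrt hN0.le
  have hRN : R ≤ N ^ η := hNR N n6
  have hY0 : 0 < Y := lt_of_lt_of_le (Real.rpow_pos_of_pos hN0 _) hY1
  have hR0 : 0 < R := by linarith
  have hY3 : Y ≤ √N := by
    have h1 : δ ^ 20 / R ≤ 1 := by
      rw [div_le_one hR0]
      exact (pow_le_one₀ hδ0.le hδ1).trans hR
    nlinarith
  obtain ⟨S, hSd⟩ : ∃ S, S = Y * (R * √N) := ⟨_, rfl⟩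
  have hS0' : 0 < S := by rw [hSd]; positivity
  have hSδ : S ≤ δ ^ 20 * N := by
    rw [hSd]
    calc Y * (R * √N) ≤ (δ ^ 20 / R * √N) * (R * √N) := mul_le_mul_of_nonneg_right hY2 (by positivity)
      _ = δ ^ 20 * (√N * √N) * (R / R) := by ring
      _ = δ ^ 20 * N := by rw [hss, div_self hR0.ne', mul_one]
  obtain ⟨ρ, hρd⟩ : ∃ ρ, ρ = Y * (R * √N) / N := ⟨_, rfl⟩
  have hρS : ρ * N = S := by
    rw [hρd, hSd]
    field_simp
  have hρ0 : 0 < ρ := by rw [hρd]; positivity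
  have hρδ : ρ ≤ δ ^ 20 := by
    rw [hρd, div_le_iff₀ hN0, ← hSd]
    exact hSδ
  obtain ⟨r1, r2, r3, r4⟩ := C7F_small ρ δ hρ0 hδ0 hδ1 hρδ
  have hSN : S ≤ N := by
    rw [← hρS]
    nlinarith
  have hRg : ∀ η' : ℝ, 2 * η ≤ η' → Rg η' N Y (R * √N) := fun η' h =>
    C7F_rg η η' N Y R hη0 h n7 hR hRN hY1 hY3 (by rw [← hSd]; exact hSN)
  have hcen : ∀ t ∈ F, Cen κ N Y (R * √N) t := fun t ht => (hF t ht).1
  have hw0 : (0 : ℝ) < w := by
    have : 0 < w := by omega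
    exact_mod_cast this
  rw [← hSd]
  by_cases hw5 : w < 5
  · -- small `w`
    have hrg := hRg ηT hηT
    have h1 := hT1 N Y (R * √N) n2 hrg.r1 hrg.r2 (by rw [one_mul]; exact hrg.r3) hrg.r4 1 le_rfl
      (by rw [Nat.cast_one]; exact Real.one_le_rpow n7 hT0.le) F (fun t ht => by
        refine ⟨?_, by simp⟩
        have h2 : N * ((1 : ℕ) : ℝ) ^ 2 = N := by simp
        rw [h2]
        exact hcen t ht)
    rw [Nat.primeFactors_one, Finset.prod_empty, mul_one, ← hSd] at h1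
    have h3 : CT ≤ max CA1 (4 * CT) / w := by
      rw [le_div_iff₀ hw0]
      have h4 : (w : ℝ) ≤ 4 := by
        have : w ≤ 4 := by omega
        exact_mod_cast this
      have h5 := le_max_right CA1 (4 * CT)
      nlinarith
    calc (F.card : ℝ) ≤ CT * S := h1
      _ ≤ (max CA1 (4 * CT) / w + ε) * S := mul_le_mul_of_nonneg_right (by linarith) hS0'.le
  · have hw5' : 5 ≤ w := by omega
    have hTQ : ∀ t ∈ F, TQ N (√N) (R * √N) t := by
      intro t ht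
      have hc := hcen t ht
      have hz : (0 : ℝ) < (t.2.2.2 : ℝ) := by
        have := hc.z1
        linarith
      have hl1 : 0 < lam t := by
        have h := hc.l1
        have h' : (0 : ℝ) < (lam t : ℝ) := lt_of_lt_of_le (by positivity) h
        exact_mod_cast h'
      have hl2 : (lam t : ℝ) ≤ R * √N := by
        have h := hc.l2
        have h' : √(-(dis t : ℝ)) ≤ √N := Real.sqrt_le_sqrt hc.d2
        have h'' : (lam t : ℝ) * √N ≤ (R * √N) * √N := h.trans (mul_le_mul_of_nonneg_left h' (by positivity))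
        exact le_of_mul_le_mul_right h'' hs0
      exact ⟨hc.tt, by exact_mod_cast hz, hc.z2.trans hY3, hl1, hl2, hc.d1, hc.d2⟩
    obtain ⟨X, hX⟩ : ∃ X, X = ρ ^ (-(1.05 : ℝ)) := ⟨_, rfl⟩
    have hX1 : 1 ≤ X := by
      rw [hX]
      exact Real.one_le_rpow_of_pos_of_le_one_of_nonpos hρ0 r1 (by norm_num)
    have hX0 : 0 < X := by linarith
    let F1 : Finset Tpl := F.filter fun t => ∃ p : ℕ, p.Prime ∧ w < p ∧ (p : ℝ) ^ 2 * S ≤ N ∧ (p : ℤ) ^ 2 ∣ dis t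
    let F2 : Finset Tpl := F.filter fun t => ∃ p : ℕ, p.Prime ∧ N < (p : ℝ) ^ 2 * S ∧ (p : ℝ) ^ 2 * S ≤ A * N ∧
      (p : ℤ) ^ 2 ∣ dis t
    let F3 : Finset Tpl := F.filter fun t => ∃ (f : ℕ) (D₀ : ℤ), IsFund D₀ ∧ dis t = D₀ * (f : ℤ) ^ 2 ∧
      (∀ p : ℕ, p.Prime → p ∣ f → 5 < p) ∧ ∃ p : ℕ, p.Prime ∧ p ∣ f ∧ X < p
    let F4 : Finset Tpl := F.filter fun t => ∃ p : ℕ, p.Prime ∧ p ≠ 2 ∧ N ≤ (p : ℝ) ^ 2 * S ∧ (p : ℝ) ≤ X ∧
      (p : ℤ) ^ 2 ∣ dis t ∧ ((p : ℤ) ∣ t.2.2.2 ∨ (p : ℤ) ∣ lam t)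
    let F5 : Finset Tpl := F.filter fun t => ∃ (p : ℕ) (D₀ : ℤ), p.Prime ∧ 5 < p ∧ IsFund D₀ ∧
      dis t = D₀ * (p : ℤ) ^ 2 ∧ ¬ (p : ℤ) ∣ t.2.2.2 * lam t ∧ N < (p : ℝ) ^ 2 * S ∧ (p : ℝ) ≤ X
    let F6 : Finset Tpl := F.filter fun t => ∃ (f : ℕ) (D₀ : ℤ), IsFund D₀ ∧ dis t = D₀ * (f : ℤ) ^ 2 ∧ 2 ≤ f ∧
      ¬ f.Prime ∧ IsCoprime (f : ℤ) t.2.2.2 ∧ ∀ p : ℕ, p.Prime → p ∣ f → 5 < p ∧ A * N < (p : ℝ) ^ 2 * S
    have hmem : ∀ t ∈ F, t ∈ F1 ∨ t ∈ F2 ∨ t ∈ F3 ∨ t ∈ F4 ∨ t ∈ F5 ∨ t ∈ F6 := by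
      intro t ht
      have hdis : dis t < 0 := by
        have h := (hcen t ht).d1
        have h' : (dis t : ℝ) < 0 := by linarith
        exact_mod_cast h'
      rcases hC7S w N S A X t hw5' hA1' hN0.le (hcen t ht).tt hdis (hF t ht).2.1 (hF t ht).2.2 with
        a | a | a | a | a | a
      · exact Or.inl (mem_filter.mpr ⟨ht, a⟩)
      · exact Or.inr (Or.inl (mem_filter.mpr ⟨ht, a⟩))
      · exact Or.inr (Or.inr (Or.inl (mem_filter.mpr ⟨ht, a⟩)))
      · exact Or.inr (Or.inr (Or.inr (Or.inl (mem_filter.mpr ⟨ht, a⟩))))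
      · exact Or.inr (Or.inr (Or.inr (Or.inr (Or.inl (mem_filter.mpr ⟨ht, a⟩)))))
      · exact Or.inr (Or.inr (Or.inr (Or.inr (Or.inr (mem_filter.mpr ⟨ht, a⟩)))))
    have hcount := C7F_sum F F1 F2 F3 F4 F5 F6 hmem
    -- type 1
    have c1 : (F1.card : ℝ) ≤ CA1 / w * S := by
      have h := hA1 N Y (R * √N) w n1 (hRg ηA hηA) (by
        have : 1 ≤ w := by omega
        exact_mod_cast this) F1 (fun t ht => by
        obtain ⟨ht1, p, q1, q2, q3, q4⟩ := mem_filter.mp ht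
        refine ⟨hcen t ht1, p, q1, by exact_mod_cast q2, ?_, q4⟩
        rw [one_mul, ← hSd]
        exact q3)
      rwa [← hSd] at h
    -- type 2
    have hNS : 1 ≤ N / S := by
      rw [le_div_iff₀ hS0', one_mul]
      exact hSN
    have hWρ : √(N / S) * √ρ = 1 := by
      rw [← Real.sqrt_mul (by positivity)]
      have : N / S * ρ = 1 := by
        rw [div_mul_eq_mul_div, mul_comm, hρS, div_self hS0'.ne']
      rw [this, Real.sqrt_one]
    have hW0 : 0 < √(N / S) := Real.sqrt_pos.mpr (by positivity)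
    have c2 : (F2.card : ℝ) ≤ ε / 8 * S := by
      have h := hA2 N Y (R * √N) (√(N / S)) n3 (hRg ηA hηA) (by
        rw [Real.one_le_sqrt]
        exact hNS) F2 (fun t ht => by
        obtain ⟨ht1, p, q1, q2, q3, q4⟩ := mem_filter.mp ht
        refine ⟨hcen t ht1, p, q1, ?_, ?_, q4⟩
        · rw [Real.sqrt_lt' (by exact_mod_cast q1.pos), div_lt_iff₀ hS0']
          exact q2
        · rw [← hSd]
          exact q3)
      rw [← hSd] at h
      have h1 : CA2 / √(N / S) = CA2 * √ρ := by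
        rw [div_eq_iff hW0.ne', mul_assoc, mul_comm (√ρ), hWρ, mul_one]
      rw [h1] at h
      refine h.trans (mul_le_mul_of_nonneg_right ?_ hS0'.le)
      exact (mul_le_mul_of_nonneg_left r3 (by linarith)).trans hd1
    -- type 3
    have c3 : (F3.card : ℝ) ≤ ε / 8 * S := by
      have h := hG N R X n7 hR hX1 F3 (fun t ht => by
        obtain ⟨ht1, ht2⟩ := mem_filter.mp ht
        exact ⟨hTQ t ht1, ht2⟩)
      have h1 : X * ρ ^ (1.05 : ℝ) = 1 := by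
        rw [hX, ← Real.rpow_add hρ0]
        norm_num
      have h2 : ρ ^ (1.05 : ℝ) = ρ ^ (1 / 20 : ℝ) * ρ := by
        rw [show (1.05 : ℝ) = 1 / 20 + 1 by norm_num, Real.rpow_add hρ0, Real.rpow_one]
      have h3 : CG * R / X * N = CG * R * ρ ^ (1 / 20 : ℝ) * S := by
        rw [← hρS, div_mul_eq_mul_div, div_eq_iff hX0.ne']
        calc CG * R * N = CG * R * N * (X * ρ ^ (1.05 : ℝ)) := by rw [h1, mul_one]
          _ = CG * R * ρ ^ (1 / 20 : ℝ) * (ρ * N) * X := by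
            rw [h2]
            ring
      rw [h3] at h
      refine h.trans (mul_le_mul_of_nonneg_right ?_ hS0'.le)
      exact (mul_le_mul_of_nonneg_left r2 (by linarith)).trans hd4
    -- type 4
    have c4 : (F4.card : ℝ) ≤ ε / 8 * S := by
      have h := hB1 N Y (R * √N) n4 (hRg ηB hηB) F4 (fun t ht => by
        obtain ⟨ht1, p, q1, q2, q3, q4, q5, q6⟩ := mem_filter.mp ht
        refine ⟨hcen t ht1, p, q1, q2, ?_, ?_, q5, q6⟩
        · rw [← hSd]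
          exact q3
        · rw [← hρd, ← hX]
          exact q4)
      rw [← hρd, ← hSd] at h
      refine h.trans (mul_le_mul_of_nonneg_right ?_ hS0'.le)
      exact (mul_le_mul_of_nonneg_left r4 (by linarith)).trans hd2
    -- type 5
    have c5 : (F5.card : ℝ) ≤ ε / 8 * S := by
      have h := hM1 N Y n5 (hRg ηS hηS) F5 (fun t ht => by
        obtain ⟨ht1, p, D₀, q1, q2, q3, q4, q5, q6, q7⟩ := mem_filter.mp ht
        refine ⟨hcen t ht1, p, D₀, q1, q2, q3, q4, q5, ?_, ?_⟩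
        · rw [← hρd, Real.rpow_neg hρ0.le, ← Real.sqrt_eq_rpow, ← Real.sqrt_inv]
          rw [Real.sqrt_lt' (by exact_mod_cast q1.pos), inv_lt_iff_one_lt_mul₀ hρ0]
          rw [← hρS] at q6
          have h8 : 1 * N < ((p : ℝ) ^ 2 * ρ) * N := by linarith
          have h9 := lt_of_mul_lt_mul_right h8 hN0.le
          linarith
        · rw [← hρd, show (21 / 20 : ℝ) = 1.05 by norm_num, ← hX]
          exact q7)
      rw [← hρd, ← hSd] at h
      refine h.trans (mul_le_mul_of_nonneg_right ?_ hS0'.le)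
      exact (mul_le_mul_of_nonneg_left r4 (by linarith)).trans hd3
    -- type 6
    have c6 : (F6.card : ℝ) ≤ ε / 8 * S := by
      have hAN : 1 ≤ A * N / S := by
        rw [le_div_iff₀ hS0', one_mul]
        nlinarith
      have h := hP N R (√(A * N / S)) n7 hR (by
        rw [Real.one_le_sqrt]
        exact hAN) F6 (fun t ht => by
        obtain ⟨ht1, f, D₀, q1, q2, q3, q4, q5, q6⟩ := mem_filter.mp ht
        refine ⟨hTQ t ht1, f, D₀, q1, q2, q3, q4, q5, fun p hp hpf => ⟨(q6 p hp hpf).1, ?_⟩⟩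
        rw [Real.sqrt_lt' (by exact_mod_cast hp.pos), div_lt_iff₀ hS0']
        exact (q6 p hp hpf).2)
      rw [Real.sq_sqrt (by linarith)] at h
      have h1 : CP * R / (A * N / S) * N = CP * R / A * S := by
        have hA0' : A ≠ 0 := by linarith
        have := hN0.ne'
        have := hS0'.ne'
        field_simp
      rw [h1] at h
      exact h.trans (mul_le_mul_of_nonneg_right hA2' hS0'.le)
    have hmax : CA1 / w ≤ max CA1 (4 * CT) / w := div_le_div_of_nonneg_right (le_max_left _ _) hw0.le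
    calc (F.card : ℝ) ≤ F1.card + F2.card + F3.card + F4.card + F5.card + F6.card := hcount
      _ ≤ CA1 / w * S + ε / 8 * S + ε / 8 * S + ε / 8 * S + ε / 8 * S + ε / 8 * S := by linarith
      _ = (CA1 / w + 5 * (ε / 8)) * S := by ring
      _ ≤ (max CA1 (4 * CT) / w + ε) * S := mul_le_mul_of_nonneg_right (by linarith) hS0'.le

end Pool.Agent.T7
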