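import Pool.Agent.helper46.T7.SpecC

set_option autoImplicit false

namespace Pool.Agent.T7

open Finset NumberField Pool.Agent.helper3.FT Pool.Agent.helper47.RA Pool.Agent.T5 Pool.Agent.T6
open Pool.Agent.helper26.T5 (nn LEMB LP HCL HGA LYT LAW)
open Pool.Agent.helper28.LT (rad)

theorem CPA : CPA_stmt := by
  classical
  intro hh hUB hOF hCPF hCPS
  obtain ⟨h, hh⟩ := hh
  obtain ⟨C₁, hC₁, hF1⟩ := hCPF hUB hOF
  obtain ⟨C₂, hC₂, hS⟩ := hCPS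
  refine ⟨C₁ * C₂, by nlinarith, fun N R P hN hR hP F hF => ?_⟩
  have hF' : ∀ t ∈ F, TQ N (√N) (R * √N) t := fun t ht => (hF t ht).1
  have hF'' : ∀ t ∈ F, ∃ (f : ℕ) (D₀ : ℤ), IsFund D₀ ∧ dis t = D₀ * (f : ℤ) ^ 2 ∧ 2 ≤ f ∧ ¬ f.Prime ∧
      IsCoprime (f : ℤ) t.2.2.2 ∧ ∀ p : ℕ, p.Prime → p ∣ f → 5 < p ∧ P < p := fun t ht => (hF t ht).2
  choose! f D hf using hF''
  have hcard : (F.card : ℝ) = ∑ g ∈ F.image f, ((F.filter fun t => f t = g).card : ℝ) := by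
    rw [Finset.card_eq_sum_card_fiberwise (f := f) (t := F.image f) (fun t ht => mem_image_of_mem _ ht),
      Nat.cast_sum]
  have hfib : ∀ g ∈ F.image f, ((F.filter fun t => f t = g).card : ℝ) ≤
      C₁ * R * (49 ^ g.primeFactors.card / ((g : ℝ) * rad g)) * N := by
    intro g hg
    obtain ⟨t0, ht0, hg0⟩ := mem_image.mp hg
    obtain ⟨a1, a2, a3, a4, a5, a6⟩ := hf t0 ht0
    rw [hg0] at a3 a6
    refine hF1 h hh N R g hN hR (by omega) (fun p hp hpg => (a6 p hp hpg).1) _ fun t ht => ?_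
    obtain ⟨htF, htg⟩ := mem_filter.mp ht
    obtain ⟨b1, b2, b3, b4, b5, b6⟩ := hf t htF
    rw [htg] at b2 b5
    exact ⟨hF' t htF, b5, D t, b1, b2⟩
  have hsum : ∑ g ∈ F.image f, (49 : ℝ) ^ g.primeFactors.card / ((g : ℝ) * rad g) ≤ C₂ / P ^ 2 := by
    refine hS P _ hP fun g hg => ?_
    obtain ⟨t0, ht0, hg0⟩ := mem_image.mp hg
    obtain ⟨a1, a2, a3, a4, a5, a6⟩ := hf t0 ht0
    rw [hg0] at a3 a4 a6
    exact ⟨a3, a4, fun p hp hpg => (a6 p hp hpg).2⟩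
  rw [hcard]
  calc ∑ g ∈ F.image f, ((F.filter fun t => f t = g).card : ℝ)
      ≤ ∑ g ∈ F.image f, C₁ * R * (49 ^ g.primeFactors.card / ((g : ℝ) * rad g)) * N := Finset.sum_le_sum hfib
    _ = C₁ * R * (∑ g ∈ F.image f, (49 : ℝ) ^ g.primeFactors.card / ((g : ℝ) * rad g)) * N := by
        rw [Finset.mul_sum, Finset.sum_mul]
    _ ≤ C₁ * R * (C₂ / P ^ 2) * N := by
        apply mul_le_mul_of_nonneg_right _ (by linarith)
        apply mul_le_mul_of_nonneg_left hsum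
        nlinarith
    _ = C₁ * C₂ * R / P ^ 2 * N := by ring

end Pool.Agent.T7
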