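import Pool.Agent.helper8.T7.SpecSM

set_option autoImplicit false

namespace Pool.Agent.T7

open Finset NumberField Pool.Agent.helper3.FT Pool.Agent.helper47.RA Pool.Agent.T5 Pool.Agent.T6 Pool.Agent.T6L
open Pool.Agent.helper26.T5 (nn LEMB LPR LAW LP LPA HLN HPR HSQ HID HCL HGA)

theorem SMC_alg (W A S : ℝ) (hA : 0 ≤ A) (hS : 0 ≤ S) (h : W ^ 2 ≤ A * (W + S)) : W ≤ A + √(A * S) := by
  have h1 : √(A * S) ^ 2 = A * S := Real.sq_sqrt (mul_nonneg hA hS)
  have h2 : 0 ≤ √(A * S) := Real.sqrt_nonneg _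
  by_contra hc
  rw [not_le] at hc
  nlinarith

theorem SMC : SMC_stmt := by
  classical
  intro ι _ T l c A B M hA hB hM h1 h2 h3
  let V : Finset (ι × ℕ) := T.image fun t => (l t, c t)
  have hV : ∀ v : ι × ℕ, v ∈ V ↔ ∃ t ∈ T, (l t, c t) = v := fun v => Finset.mem_image
  -- the tuples
  have hT : (T.card : ℝ) ≤ B * V.card := by
    have e1 : T.card = ∑ v ∈ V, (T.filter fun t => (l t, c t) = v).card :=
      Finset.card_eq_sum_card_fiberwise fun t ht => Finset.mem_image_of_mem _ ht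
    rw [e1, Nat.cast_sum]
    calc ∑ v ∈ V, ((T.filter fun t => (l t, c t) = v).card : ℝ) ≤ ∑ _v ∈ V, B := by
          refine Finset.sum_le_sum fun v _ => h2 v.1 v.2 _ fun t ht => ?_
          rw [Finset.mem_filter] at ht
          exact ⟨ht.1, by rw [← ht.2], by rw [← ht.2]⟩
      _ = B * V.card := by
          rw [Finset.sum_const, nsmul_eq_mul, mul_comm]
  -- the choice
  have hs : ∀ v : ι × ℕ, ∃ t : Tpl, v ∈ V → t ∈ T ∧ l t = v.1 ∧ c t = v.2 := by
    intro v
    by_cases hv : v ∈ V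
    · obtain ⟨t, ht, htv⟩ := (hV v).mp hv
      exact ⟨t, fun _ => ⟨ht, by rw [← htv], by rw [← htv]⟩⟩
    · exact ⟨((0, 0), (0, 0)), fun h => absurd h hv⟩
  choose s hs using hs
  let D : Finset ((ι × ℕ) × (ι × ℕ)) := (V ×ˢ V).filter fun p => p.1.1 = p.2.1
  have hD : ∑ i ∈ T.image l, (V.filter fun v => v.1 = i).card ^ 2 = D.card := by
    have e1 : D.card = ∑ i ∈ T.image l, (D.filter fun p => p.1.1 = i).card := by
      refine Finset.card_eq_sum_card_fiberwise fun p hp => ?_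
      have hp2 : p ∈ D := hp
      have hp3 := (Finset.mem_filter.mp hp2).1
      obtain ⟨t, ht, htv⟩ := (hV p.1).mp (Finset.mem_product.mp hp3).1
      have : p.1.1 = l t := by rw [← htv]
      show p.1.1 ∈ T.image l
      rw [this]
      exact Finset.mem_image_of_mem _ ht
    rw [e1]
    refine Finset.sum_congr rfl fun i _ => ?_
    rw [sq, ← Finset.card_product]
    congr 1
    ext p
    simp only [D, Finset.mem_product, Finset.mem_filter]
    constructor
    · rintro ⟨⟨a, b⟩, e, f⟩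
      exact ⟨⟨⟨a, e⟩, by rw [b, f]⟩, b⟩
    · rintro ⟨⟨⟨a, e⟩, g⟩, b⟩
      exact ⟨⟨a, b⟩, e, by rw [← g, b]⟩
  have hW : V.card = ∑ i ∈ T.image l, (V.filter fun v => v.1 = i).card := by
    refine Finset.card_eq_sum_card_fiberwise fun v hv => ?_
    obtain ⟨t, ht, htv⟩ := (hV v).mp hv
    have : v.1 = l t := by rw [← htv]
    show v.1 ∈ T.image l
    rw [this]
    exact Finset.mem_image_of_mem _ ht
  have hCS : ((V.card : ℝ)) ^ 2 ≤ A * D.card := by
    have e1 : (V.card : ℝ) = ∑ i ∈ T.image l, ((V.filter fun v => v.1 = i).card : ℝ) := by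
      rw [hW, Nat.cast_sum]
    have e2 : (D.card : ℝ) = ∑ i ∈ T.image l, ((V.filter fun v => v.1 = i).card : ℝ) ^ 2 := by
      rw [← hD, Nat.cast_sum]
      exact Finset.sum_congr rfl fun i _ => Nat.cast_pow _ _
    have e3 := sq_sum_le_card_mul_sum_sq (s := T.image l) (f := fun i => ((V.filter fun v => v.1 = i).card : ℝ))
    rw [e1]
    refine e3.trans ?_
    rw [e2]
    exact mul_le_mul_of_nonneg_right h1 (Finset.sum_nonneg fun i _ => sq_nonneg _)
  -- the pairs
  have hD1 : (D.filter fun p => p.1 = p.2).card ≤ V.card := by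
    refine Finset.card_le_card_of_injOn (fun p => p.1) (fun p hp => ?_) fun p hp p' hp' he => ?_
    · have hp2 := (Finset.mem_filter.mp hp).1
      exact (Finset.mem_product.mp (Finset.mem_filter.mp hp2).1).1
    · have a := (Finset.mem_filter.mp hp).2
      have b := (Finset.mem_filter.mp hp').2
      have he2 : p.1 = p'.1 := he
      exact Prod.ext he2 (by rw [← a, ← b, he2])
  have hD2 : ((D.filter fun p => ¬ p.1 = p.2).card : ℝ) ≤ ∑ q ∈ T.image c, M q := by
    have e1 : (D.filter fun p => ¬ p.1 = p.2).card =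
        ∑ q ∈ T.image c, ((D.filter fun p => ¬ p.1 = p.2).filter fun p => p.2.2 = q).card := by
      refine Finset.card_eq_sum_card_fiberwise fun p hp => ?_
      have hp2 := (Finset.mem_filter.mp hp).1
      have hp3 := (Finset.mem_filter.mp hp2).1
      obtain ⟨t, ht, htv⟩ := (hV p.2).mp (Finset.mem_product.mp hp3).2
      have : p.2.2 = c t := by rw [← htv]
      show p.2.2 ∈ T.image c
      rw [this]
      exact Finset.mem_image_of_mem _ ht
    rw [e1, Nat.cast_sum]
    refine Finset.sum_le_sum fun q hq => ?_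
    have hmem : ∀ p ∈ (D.filter fun p => ¬ p.1 = p.2).filter fun p => p.2.2 = q,
        p.1 ∈ V ∧ p.2 ∈ V ∧ p.1.1 = p.2.1 ∧ p.1 ≠ p.2 ∧ p.2.2 = q := by
      intro p hp
      obtain ⟨hp1, hp2⟩ := Finset.mem_filter.mp hp
      obtain ⟨hp3, hp4⟩ := Finset.mem_filter.mp hp1
      obtain ⟨hp5, hp6⟩ := Finset.mem_filter.mp hp3
      obtain ⟨hp7, hp8⟩ := Finset.mem_product.mp hp5
      exact ⟨hp7, hp8, hp6, hp4, hp2⟩
    have hinj : Set.InjOn (fun p : (ι × ℕ) × (ι × ℕ) => s p.1)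
        (((D.filter fun p => ¬ p.1 = p.2).filter fun p => p.2.2 = q : Finset _) : Set ((ι × ℕ) × (ι × ℕ))) := by
      intro p hp p' hp' he
      obtain ⟨a1, a2, a3, a4, a5⟩ := hmem p hp
      obtain ⟨b1, b2, b3, b4, b5⟩ := hmem p' hp'
      have he2 : s p.1 = s p'.1 := he
      obtain ⟨_, c1, c2⟩ := hs p.1 a1
      obtain ⟨_, d1, d2⟩ := hs p'.1 b1
      have e2 : p.1 = p'.1 := Prod.ext (by rw [← c1, ← d1, he2]) (by rw [← c2, ← d2, he2])
      refine Prod.ext e2 (Prod.ext ?_ ?_)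
      · rw [← a3, ← b3, e2]
      · rw [a5, b5]
    rw [← Finset.card_image_of_injOn hinj]
    refine h3 q hq _ fun t ht => ?_
    obtain ⟨p, hp, hpt⟩ := Finset.mem_image.mp ht
    obtain ⟨a1, a2, a3, a4, a5⟩ := hmem p hp
    obtain ⟨c0, c1, c2⟩ := hs p.1 a1
    obtain ⟨d0, d1, d2⟩ := hs p.2 a2
    have hpt2 : s p.1 = t := hpt
    rw [hpt2] at c0 c1 c2
    refine ⟨c0, ?_, s p.2, d0, ?_, ?_⟩
    · intro hcq
      apply a4
      exact Prod.ext a3 (by rw [← c2, hcq, a5])
    · rw [d1, c1, a3]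
    · rw [d2, a5]
  have hD3 : (D.card : ℝ) ≤ V.card + ∑ q ∈ T.image c, M q := by
    have e1 := Finset.card_filter_add_card_filter_not (s := D) (fun p => p.1 = p.2)
    have e2 : (D.card : ℝ) = ((D.filter fun p => p.1 = p.2).card : ℝ) + ((D.filter fun p => ¬ p.1 = p.2).card : ℝ) := by
      rw [← Nat.cast_add, e1]
    rw [e2]
    have e3 : ((D.filter fun p => p.1 = p.2).card : ℝ) ≤ V.card := by exact_mod_cast hD1
    linarith
  have hfin := SMC_alg (V.card : ℝ) A (∑ q ∈ T.image c, M q) hA (Finset.sum_nonneg fun q _ => hM q)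
    (hCS.trans (mul_le_mul_of_nonneg_left hD3 hA))
  exact hT.trans (mul_le_mul_of_nonneg_left hfin hB)

end Pool.Agent.T7
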