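import Pool.Agent.helper8.T7.SpecSM

set_option autoImplicit false

namespace Pool.Agent.T7

open Finset NumberField Pool.Agent.helper3.FT Pool.Agent.helper47.RA Pool.Agent.T5 Pool.Agent.T6 Pool.Agent.T6L
open Pool.Agent.helper26.T5 (nn LEMB LPR LAW LP LPA HLN HPR HSQ HID HCL HGA)

theorem SMD_num (ϱ P : ℝ) (h0 : 0 < ϱ) (h1 : ϱ ≤ 1) (hP : 1 ≤ P) (h2 : ϱ ^ (-(1 / 2 : ℝ)) ≤ 2 * P)
    (h3 : P ≤ ϱ ^ (-(21 / 20 : ℝ))) :
    1 / P ≤ 2 * ϱ ^ (1 / 2 : ℝ) ∧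
      1 / P * (1 + ϱ ^ (3 / 2 : ℝ) * P ^ (7 / 4 : ℝ) * (1 + P * ϱ)) ≤ 4 * ϱ ^ (1 / 2 : ℝ) := by
  have hP0 : 0 < P := by linarith
  have e1 : ϱ ^ (1 / 2 : ℝ) * ϱ ^ (-(1 / 2 : ℝ)) = 1 := by
    rw [← Real.rpow_add h0]
    norm_num
  have e2 : 0 < ϱ ^ (1 / 2 : ℝ) := Real.rpow_pos_of_pos h0 _
  have a1 : 1 / P ≤ 2 * ϱ ^ (1 / 2 : ℝ) := by
    rw [div_le_iff₀ hP0]
    have := mul_le_mul_of_nonneg_left h2 e2.le
    rw [e1] at this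
    linarith
  refine ⟨a1, ?_⟩
  have e3 : P ^ (7 / 4 : ℝ) = P ^ (3 / 4 : ℝ) * P := by
    rw [show (7 / 4 : ℝ) = 3 / 4 + 1 by norm_num, Real.rpow_add hP0, Real.rpow_one]
  have e4 : P ^ (3 / 4 : ℝ) ≤ ϱ ^ (-(63 / 80 : ℝ)) := by
    calc P ^ (3 / 4 : ℝ) ≤ (ϱ ^ (-(21 / 20 : ℝ))) ^ (3 / 4 : ℝ) := Real.rpow_le_rpow hP0.le h3 (by norm_num)
      _ = ϱ ^ (-(63 / 80 : ℝ)) := by
        rw [← Real.rpow_mul h0.le]
        norm_num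
  have e5 : P * ϱ ≤ ϱ ^ (-(1 / 20 : ℝ)) := by
    calc P * ϱ ≤ ϱ ^ (-(21 / 20 : ℝ)) * ϱ := mul_le_mul_of_nonneg_right h3 h0.le
      _ = ϱ ^ (-(21 / 20 : ℝ)) * ϱ ^ (1 : ℝ) := by rw [Real.rpow_one]
      _ = ϱ ^ (-(1 / 20 : ℝ)) := by
        rw [← Real.rpow_add h0]
        norm_num
  have e6 : 1 ≤ ϱ ^ (-(1 / 20 : ℝ)) := Real.one_le_rpow_of_pos_of_le_one_of_nonpos h0 h1 (by norm_num)
  have e7 : 1 / P * (ϱ ^ (3 / 2 : ℝ) * P ^ (7 / 4 : ℝ) * (1 + P * ϱ)) ≤ 2 * ϱ ^ (1 / 2 : ℝ) := by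
    have e8 : 1 / P * (ϱ ^ (3 / 2 : ℝ) * P ^ (7 / 4 : ℝ) * (1 + P * ϱ)) =
        ϱ ^ (3 / 2 : ℝ) * P ^ (3 / 4 : ℝ) * (1 + P * ϱ) := by
      rw [e3]
      field_simp
    rw [e8]
    have f1 : 0 < ϱ ^ (3 / 2 : ℝ) := Real.rpow_pos_of_pos h0 _
    have f2 : 0 ≤ P ^ (3 / 4 : ℝ) := Real.rpow_nonneg hP0.le _
    have f3 : 0 ≤ 1 + P * ϱ := by positivity
    calc ϱ ^ (3 / 2 : ℝ) * P ^ (3 / 4 : ℝ) * (1 + P * ϱ) ≤
          ϱ ^ (3 / 2 : ℝ) * ϱ ^ (-(63 / 80 : ℝ)) * (2 * ϱ ^ (-(1 / 20 : ℝ))) := by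
          refine mul_le_mul (mul_le_mul_of_nonneg_left e4 f1.le) (by linarith) f3 ?_
          exact mul_nonneg f1.le (Real.rpow_nonneg h0.le _)
      _ = 2 * ϱ ^ (53 / 80 : ℝ) := by
          rw [show ϱ ^ (53 / 80 : ℝ) = ϱ ^ (3 / 2 : ℝ) * ϱ ^ (-(63 / 80 : ℝ)) * ϱ ^ (-(1 / 20 : ℝ)) by
            rw [← Real.rpow_add h0, ← Real.rpow_add h0]
            norm_num]
          ring
      _ ≤ 2 * ϱ ^ (1 / 2 : ℝ) := by
          have := Real.rpow_le_rpow_of_exponent_ge h0 h1 (show (1 / 2 : ℝ) ≤ 53 / 80 by norm_num)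
          linarith
  rw [mul_add, mul_one]
  linarith

theorem SMD_log (ϱ : ℝ) (h0 : 0 < ϱ) (h1 : ϱ ≤ 1) :
    1 + Real.log (ϱ ^ (-(21 / 20 : ℝ))) / Real.log 2 ≤ 14 * ϱ ^ (-(1 / 8 : ℝ)) := by
  have e1 : Real.log (ϱ ^ (-(21 / 20 : ℝ))) = 21 / 20 * Real.log ϱ⁻¹ := by
    rw [Real.log_rpow h0, Real.log_inv]
    ring
  have e2 : Real.log ϱ⁻¹ ≤ (ϱ⁻¹) ^ (1 / 8 : ℝ) / (1 / 8) :=
    Real.log_le_rpow_div (inv_nonneg.mpr h0.le) (by norm_num)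
  have e3 : (ϱ⁻¹) ^ (1 / 8 : ℝ) = ϱ ^ (-(1 / 8 : ℝ)) := by
    rw [Real.inv_rpow h0.le, Real.rpow_neg h0.le]
  have e4 : 1 ≤ ϱ ^ (-(1 / 8 : ℝ)) := Real.one_le_rpow_of_pos_of_le_one_of_nonpos h0 h1 (by norm_num)
  have e5 : 0.6931471803 < Real.log 2 := Real.log_two_gt_d9
  rw [e1]
  have e6 : 21 / 20 * Real.log ϱ⁻¹ / Real.log 2 ≤ 13 * ϱ ^ (-(1 / 8 : ℝ)) := by
    rw [div_le_iff₀ (by linarith)]
    rw [e3] at e2
    nlinarith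
  linarith

theorem SMD_sqrt (C S x E : ℝ) (hC : 1 ≤ C) (hS : 0 ≤ S) (hx : 0 ≤ x)
    (h : E ≤ C * S ^ 2 * (4 * (x * x))) : √E ≤ 2 * C * S * x := by
  rw [show 2 * C * S * x = √((2 * C * S * x) ^ 2) by
    rw [Real.sqrt_sq]; positivity]
  refine Real.sqrt_le_sqrt (h.trans ?_)
  have h1 : 0 ≤ S ^ 2 * (4 * (x * x)) := by positivity
  nlinarith [mul_le_mul_of_nonneg_right hC (mul_nonneg (by linarith : (0 : ℝ) ≤ C) h1)]

theorem SMD (hSMP : SMP_stmt) (hSMB : SMB_stmt) : SM_stmt := by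
  classical
  obtain ⟨η₁, hη0, hη1, hP⟩ := hSMP
  obtain ⟨C₂, N₂, hC₂, hB⟩ := hSMB
  refine ⟨η₁ / 4, by linarith, by linarith, fun κ R hκ0 hκ1 hR => ?_⟩
  obtain ⟨C₁, N₁, hC₁, hP1⟩ := hP κ R hκ0 hκ1 hR
  have hlim := (tendsto_rpow_atTop (show 0 < η₁ / 2 by linarith)).eventually_ge_atTop 2
  obtain ⟨N₃, hN₃⟩ := Filter.eventually_atTop.mp hlim
  refine ⟨56 * C₁ * C₂, max (max N₁ N₂) (max N₃ 1), by nlinarith, fun N Y hN hRg F hF => ?_⟩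
  have hN1 : N₁ ≤ N := (le_max_left _ _).trans ((le_max_left _ _).trans hN)
  have hN2 : N₂ ≤ N := (le_max_right _ _).trans ((le_max_left _ _).trans hN)
  have hN3 : N₃ ≤ N := (le_max_left _ _).trans ((le_max_right _ _).trans hN)
  have hN4 : 1 ≤ N := (le_max_right _ _).trans ((le_max_right _ _).trans hN)
  have hN0 : 0 < N := by linarith
  have hN5 : 2 ≤ N ^ (η₁ / 2) := hN₃ N hN3
  have hs0 : 0 < √N := Real.sqrt_pos.mpr hN0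
  have hss : √N * √N = N := Real.mul_self_sqrt hN0.le
  have hY2 : 0 < R * √N := by positivity
  have hY0 : 0 < Y := by
    by_contra hc
    have h1 := hRg.r2
    have h2 : N ^ (η₁ / 4) * Y ≤ 0 := mul_nonpos_of_nonneg_of_nonpos (Real.rpow_nonneg hN0.le _) (not_lt.mp hc)
    linarith
  have hS0 : 0 < Y * (R * √N) := mul_pos hY0 hY2
  obtain ⟨S, hS⟩ : ∃ S, S = Y * (R * √N) := ⟨_, rfl⟩
  obtain ⟨ϱ, hϱ⟩ : ∃ ϱ, ϱ = Y * (R * √N) / N := ⟨_, rfl⟩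
  have hϱ0 : 0 < ϱ := by rw [hϱ]; positivity
  have hϱ1 : ϱ ≤ 1 := by
    rw [hϱ, div_le_one hN0]
    exact hRg.r3
  have hϱN : N ^ (-(η₁ / 4)) ≤ ϱ := by
    rw [hϱ, le_div_iff₀ hN0]
    have h1 := hRg.r4
    have h2 : N ^ (-(η₁ / 4)) * N = N ^ (1 - η₁ / 4) := by
      rw [show 1 - η₁ / 4 = -(η₁ / 4) + 1 by ring, Real.rpow_add hN0, Real.rpow_one]
    rw [h2]
    exact h1
  have hϱ3 : ϱ ^ (-(21 / 20 : ℝ)) ≤ N ^ (21 * η₁ / 80) := by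
    have h1 : ϱ ^ (-(21 / 20 : ℝ)) ≤ (N ^ (-(η₁ / 4))) ^ (-(21 / 20 : ℝ)) :=
      Real.rpow_le_rpow_of_nonpos (Real.rpow_pos_of_pos hN0 _) hϱN (by norm_num)
    rw [← Real.rpow_mul hN0.le] at h1
    have h2 : -(η₁ / 4) * -(21 / 20 : ℝ) = 21 * η₁ / 80 := by ring
    rwa [h2] at h1
  -- the range of `Y`
  have hYle : Y ≤ √N := by
    have h1 := hRg.r3
    have h2 : Y * √N ≤ Y * (R * √N) := by
      apply mul_le_mul_of_nonneg_left _ hY0.le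
      nlinarith
    have h3 : Y * √N ≤ √N * √N := by linarith
    exact le_of_mul_le_mul_right h3 hs0
  have hYge : N ^ (0.4 : ℝ) ≤ Y := by
    have h1 : √N ≤ N ^ (η₁ / 4) * Y := by
      have := hRg.r2
      nlinarith
    have h2 : N ^ (η₁ / 4) * N ^ (0.4 : ℝ) ≤ √N := by
      rw [← Real.rpow_add hN0, Real.sqrt_eq_rpow]
      apply Real.rpow_le_rpow_of_exponent_le hN4
      norm_num
      linarith
    have h3 : N ^ (η₁ / 4) * N ^ (0.4 : ℝ) ≤ N ^ (η₁ / 4) * Y := h2.trans h1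
    exact le_of_mul_le_mul_left h3 (Real.rpow_pos_of_pos hN0 _)
  have hRg1 : Rg η₁ N Y (R * √N) := by
    refine ⟨hRg.r1, hRg.r2.trans ?_, hRg.r3, le_trans ?_ hRg.r4⟩
    · apply mul_le_mul_of_nonneg_right _ hY0.le
      exact Real.rpow_le_rpow_of_exponent_le hN4 (by linarith)
    · exact Real.rpow_le_rpow_of_exponent_le hN4 (by linarith)
  -- the primes
  have hF1 : ∀ t ∈ F, Cen κ N Y (R * √N) t := fun t ht => (hF t ht).1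
  have hF2 : ∀ t ∈ F, ∃ (p : ℕ) (D₀ : ℤ), p.Prime ∧ 5 < p ∧ IsFund D₀ ∧ dis t = D₀ * (p : ℤ) ^ 2 ∧
    ¬ (p : ℤ) ∣ t.2.2.2 * lam t ∧ (Y * (R * √N) / N) ^ (-(1 / 2 : ℝ)) < p ∧
    (p : ℝ) ≤ (Y * (R * √N) / N) ^ (-(21 / 20 : ℝ)) := fun t ht => (hF t ht).2
  choose! p D hp using hF2
  have hg1 : ∀ t ∈ F, (2 : ℝ) ^ (Nat.log 2 (p t - 1)) < p t := by
    intro t ht
    have h5 := (hp t ht).2.1
    have h1 : 2 ^ (Nat.log 2 (p t - 1)) ≤ p t - 1 := Nat.pow_log_le_self 2 (by omega)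
    have h2 : 2 ^ (Nat.log 2 (p t - 1)) < p t := by omega
    exact_mod_cast h2
  have hg2 : ∀ t ∈ F, (p t : ℝ) ≤ 2 * (2 : ℝ) ^ (Nat.log 2 (p t - 1)) := by
    intro t ht
    have h5 := (hp t ht).2.1
    have h1 : p t - 1 < 2 ^ (Nat.log 2 (p t - 1) + 1) := Nat.lt_pow_succ_log_self (by norm_num) _
    have h2 : p t ≤ 2 * 2 ^ (Nat.log 2 (p t - 1)) := by
      rw [pow_succ] at h1
      omega
    exact_mod_cast h2
  have hl2 : 0 < Real.log 2 := Real.log_pos (by norm_num)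
  obtain ⟨J, hJ⟩ : ∃ J : ℕ, J = ⌊Real.log (ϱ ^ (-(21 / 20 : ℝ))) / Real.log 2⌋₊ := ⟨_, rfl⟩
  have hϱ4 : 1 ≤ ϱ ^ (-(21 / 20 : ℝ)) := Real.one_le_rpow_of_pos_of_le_one_of_nonpos hϱ0 hϱ1 (by norm_num)
  have hmap : ∀ t ∈ F, Nat.log 2 (p t - 1) ∈ range (J + 1) := by
    intro t ht
    rw [mem_range, Nat.lt_succ_iff, hJ]
    apply Nat.le_floor
    rw [le_div_iff₀ hl2]
    have h1 : (2 : ℝ) ^ (Nat.log 2 (p t - 1)) ≤ ϱ ^ (-(21 / 20 : ℝ)) := by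
      rw [hϱ]
      exact (hg1 t ht).le.trans (hp t ht).2.2.2.2.2.2
    have h2 := Real.log_le_log (by positivity) h1
    rwa [Real.log_pow] at h2
  have hblock : ∀ j ∈ range (J + 1), ((F.filter fun t => Nat.log 2 (p t - 1) = j).card : ℝ) ≤
      4 * C₁ * C₂ * S * ϱ ^ (1 / 4 : ℝ) := by
    intro j _
    have hx0 : 0 < ϱ ^ (1 / 4 : ℝ) := Real.rpow_pos_of_pos hϱ0 _
    rcases Finset.eq_empty_or_nonempty (F.filter fun t => Nat.log 2 (p t - 1) = j) with he | ⟨t0, ht0⟩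
    · rw [he, card_empty, Nat.cast_zero, hS]
      positivity
    · obtain ⟨ht0F, ht0j⟩ := mem_filter.mp ht0
      obtain ⟨P, hPd⟩ : ∃ P : ℝ, P = (2 : ℝ) ^ j := ⟨_, rfl⟩
      have hP1' : 1 ≤ P := by
        rw [hPd]
        exact one_le_pow₀ (by norm_num)
      have hP0 : 0 < P := by linarith
      have hA1 := hg1 t0 ht0F
      have hA2 := hg2 t0 ht0F
      have hA3 := (hp t0 ht0F).2.2.2.2.2.1
      have hA4 := (hp t0 ht0F).2.2.2.2.2.2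
      rw [ht0j, ← hPd] at hA1 hA2
      rw [← hϱ] at hA3 hA4
      have h2 : ϱ ^ (-(1 / 2 : ℝ)) ≤ 2 * P := by linarith
      have h3 : P ≤ ϱ ^ (-(21 / 20 : ℝ)) := by linarith
      have h4 : P ≤ N ^ (21 * η₁ / 80) := h3.trans hϱ3
      have h5 : 2 * P ≤ N ^ η₁ := by
        calc 2 * P ≤ N ^ (η₁ / 2) * N ^ (21 * η₁ / 80) :=
              mul_le_mul hN5 h4 hP0.le (Real.rpow_nonneg hN0.le _)
          _ = N ^ (η₁ / 2 + 21 * η₁ / 80) := (Real.rpow_add hN0 _ _).symm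
          _ ≤ N ^ η₁ := Real.rpow_le_rpow_of_exponent_le hN4 (by linarith)
      have h6 : P ≤ N ^ (1 / 50 : ℝ) :=
        h4.trans (Real.rpow_le_rpow_of_exponent_le hN4 (by linarith))
      have hSB : ∀ t ∈ F.filter (fun t => Nat.log 2 (p t - 1) = j), SB N Y (R * √N) P t (p t) (D t) := by
        intro t ht
        obtain ⟨htF, htj⟩ := mem_filter.mp ht
        have hc := hF1 t htF
        obtain ⟨q1, q2, q3, q4, q5, q6, q7⟩ := hp t htF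
        have hl1 : 0 < lam t := by
          have h := hc.l1
          have h' : (0 : ℝ) < (lam t : ℝ) := lt_of_lt_of_le (mul_pos hκ0 hY2) h
          exact_mod_cast h'
        have hl2 : (lam t : ℝ) ≤ R * √N := by
          have h := hc.l2
          have h' : √(-(dis t : ℝ)) ≤ √N := Real.sqrt_le_sqrt hc.d2
          have h'' : (lam t : ℝ) * √N ≤ (R * √N) * √N := h.trans (mul_le_mul_of_nonneg_left h' hY2.le)
          exact le_of_mul_le_mul_right h'' hs0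
        have hB1 := hg1 t htF
        have hB2 := hg2 t htF
        rw [htj, ← hPd] at hB1 hB2
        exact ⟨hc.tt, hc.z1, hc.z2, hl1, hl2, hc.d1, hc.d2, q1, q2, hB1, hB2, q3, q4, q5⟩
      have hAn : 0 ≤ C₂ * (Y * √N / P) := by positivity
      have hmain := hP1 N Y P (C₂ * (Y * √N / P)) hN1 hRg1 hP1' h5 hAn
        (fun L hL => hB N Y (R * √N) P hN2 hYge hYle hP1' h6 L hL)
        (F.filter fun t => Nat.log 2 (p t - 1) = j)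
        (fun t ht => ⟨hF1 t (mem_filter.mp ht).1, p t, D t, hSB t ht⟩)
      rw [← hϱ, ← hS] at hmain
      obtain ⟨n1, n2⟩ := SMD_num ϱ P hϱ0 hϱ1 hP1' h2 h3
      have hSp : 0 < S := by rw [hS]; exact hS0
      have hYS : Y * √N ≤ S := by
        rw [hS]
        apply mul_le_mul_of_nonneg_left _ hY0.le
        nlinarith
      have hAS : C₂ * (Y * √N / P) ≤ C₂ * S * (1 / P) := by
        have : Y * √N / P ≤ S / P := div_le_div_of_nonneg_right hYS hP0.le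
        calc C₂ * (Y * √N / P) ≤ C₂ * (S / P) := mul_le_mul_of_nonneg_left this (by linarith)
          _ = C₂ * S * (1 / P) := by ring
      have hxx : ϱ ^ (1 / 4 : ℝ) * ϱ ^ (1 / 4 : ℝ) = ϱ ^ (1 / 2 : ℝ) := by
        rw [← Real.rpow_add hϱ0]
        norm_num
      have hx1 : ϱ ^ (1 / 2 : ℝ) ≤ ϱ ^ (1 / 4 : ℝ) :=
        Real.rpow_le_rpow_of_exponent_ge hϱ0 hϱ1 (by norm_num)
      have hE0 : 0 ≤ 1 + ϱ ^ (3 / 2 : ℝ) * P ^ (7 / 4 : ℝ) * (1 + P * ϱ) := by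
        have := Real.rpow_nonneg hϱ0.le (3 / 2 : ℝ)
        have := Real.rpow_nonneg hP0.le (7 / 4 : ℝ)
        positivity
      have hE : C₂ * (Y * √N / P) * (S * (1 + ϱ ^ (3 / 2 : ℝ) * P ^ (7 / 4 : ℝ) * (1 + P * ϱ))) ≤
          C₂ * S ^ 2 * (4 * (ϱ ^ (1 / 4 : ℝ) * ϱ ^ (1 / 4 : ℝ))) := by
        rw [hxx]
        calc C₂ * (Y * √N / P) * (S * (1 + ϱ ^ (3 / 2 : ℝ) * P ^ (7 / 4 : ℝ) * (1 + P * ϱ))) ≤
              C₂ * S * (1 / P) * (S * (1 + ϱ ^ (3 / 2 : ℝ) * P ^ (7 / 4 : ℝ) * (1 + P * ϱ))) :=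
              mul_le_mul_of_nonneg_right hAS (mul_nonneg hSp.le hE0)
          _ = C₂ * S ^ 2 * (1 / P * (1 + ϱ ^ (3 / 2 : ℝ) * P ^ (7 / 4 : ℝ) * (1 + P * ϱ))) := by ring
          _ ≤ C₂ * S ^ 2 * (4 * ϱ ^ (1 / 2 : ℝ)) :=
              mul_le_mul_of_nonneg_left n2 (by positivity)
      have hsq := SMD_sqrt C₂ S (ϱ ^ (1 / 4 : ℝ)) _ hC₂ hSp.le hx0.le hE
      have hA5 : C₂ * (Y * √N / P) ≤ 2 * C₂ * S * ϱ ^ (1 / 4 : ℝ) := by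
        calc C₂ * (Y * √N / P) ≤ C₂ * S * (1 / P) := hAS
          _ ≤ C₂ * S * (2 * ϱ ^ (1 / 4 : ℝ)) := mul_le_mul_of_nonneg_left (by linarith) (by positivity)
          _ = 2 * C₂ * S * ϱ ^ (1 / 4 : ℝ) := by ring
      calc ((F.filter fun t => Nat.log 2 (p t - 1) = j).card : ℝ) ≤ C₁ * (C₂ * (Y * √N / P) +
            √(C₂ * (Y * √N / P) * (S * (1 + ϱ ^ (3 / 2 : ℝ) * P ^ (7 / 4 : ℝ) * (1 + P * ϱ))))) := hmain
        _ ≤ C₁ * (2 * C₂ * S * ϱ ^ (1 / 4 : ℝ) + 2 * C₂ * S * ϱ ^ (1 / 4 : ℝ)) :=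
            mul_le_mul_of_nonneg_left (add_le_add hA5 hsq) (by linarith)
        _ = 4 * C₁ * C₂ * S * ϱ ^ (1 / 4 : ℝ) := by ring
  have hcard : (F.card : ℝ) = ∑ j ∈ range (J + 1), ((F.filter fun t => Nat.log 2 (p t - 1) = j).card : ℝ) := by
    rw [Finset.card_eq_sum_card_fiberwise (f := fun t => Nat.log 2 (p t - 1)) (t := range (J + 1)) hmap,
      Nat.cast_sum]
  rw [← hϱ, ← hS, hcard]
  have hSp : 0 < S := by rw [hS]; exact hS0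
  have hJ1 : (J : ℝ) ≤ Real.log (ϱ ^ (-(21 / 20 : ℝ))) / Real.log 2 := by
    rw [hJ]
    exact Nat.floor_le (div_nonneg (Real.log_nonneg hϱ4) hl2.le)
  have hJ2 := SMD_log ϱ hϱ0 hϱ1
  have hx : ϱ ^ (-(1 / 8 : ℝ)) * ϱ ^ (1 / 4 : ℝ) = ϱ ^ (1 / 8 : ℝ) := by
    rw [← Real.rpow_add hϱ0]
    norm_num
  calc ∑ j ∈ range (J + 1), ((F.filter fun t => Nat.log 2 (p t - 1) = j).card : ℝ)
      ≤ ∑ _j ∈ range (J + 1), 4 * C₁ * C₂ * S * ϱ ^ (1 / 4 : ℝ) := Finset.sum_le_sum hblock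
    _ = ((J : ℝ) + 1) * (4 * C₁ * C₂ * S * ϱ ^ (1 / 4 : ℝ)) := by
        rw [Finset.sum_const, card_range, nsmul_eq_mul]
        push_cast
        ring
    _ ≤ (14 * ϱ ^ (-(1 / 8 : ℝ))) * (4 * C₁ * C₂ * S * ϱ ^ (1 / 4 : ℝ)) := by
        apply mul_le_mul_of_nonneg_right
        · linarith
        · positivity
    _ = 56 * C₁ * C₂ * (ϱ ^ (-(1 / 8 : ℝ)) * ϱ ^ (1 / 4 : ℝ)) * S := by ring
    _ = 56 * C₁ * C₂ * ϱ ^ (1 / 8 : ℝ) * S := by rw [hx]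

end Pool.Agent.T7
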